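import Pool.Agent.Lib.MP_d74a39_nt.Core
import Pool.Agent.Lib.MP_d74a39_nt.Field

open NumberField Pool.Agent.Lib.MP_d74a39_nt

/-- If the cyclic group `G = ⟨z⟩` of prime order `p` is generated by a central commutator
`z = a b a⁻¹ b⁻¹` of automorphisms of `F` with `a ^ p = 1`, the image of `[A] - [B]` in
`K₀(ℤ[ζ_p, 1/p])` is `p` times an element. The sequence `0 → U → A → B → X → 0` is given as the
splice of two short exact sequences. -/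
theorem Pool.Agent.Lib.MP_d74a39_nt.Variants.heisenbergCentre :
    ∀ (p : ℕ), p.Prime →
    ∀ (K₀ F : Type) [Field K₀] [Field F] [NumberField K₀] [NumberField F] [Algebra K₀ F]
      (a b z : F ≃ₐ[K₀] F), Heis p a b z →
    ∀ (T : Set (Ideal (𝓞 F))), GoodSet K₀ T →
    ∀ (U A C B X P₀ P₁ Q₀ Q₁ : ModuleCat.{0} (Lam p)),
      IsModOn (Lam p) (gen p) (unitAct z) (sUnits T) U →
      IsModOn (Lam p) (gen p) (divAct z) (degZero T) X →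
      ShortEx (Lam p) U A C → ShortEx (Lam p) C B X →
      Resol (Lam p) A P₀ P₁ → Resol (Lam p) B Q₀ Q₁ →
      IsMultiple (Lam p) (Rp p) p P₀ P₁ Q₀ Q₁ := by
  intro p hp K₀ F _ _ _ _ _ a b z ⟨_, ha, hab, hza, hzb⟩ T ⟨hT, _, hst⟩ U A C B X P₀ P₁ Q₀ Q₁
    ⟨ι, hι, hιr, hιz⟩ ⟨κ, hκ, hκr, hκz⟩ ⟨i, q, hi, hiq, hq⟩ ⟨j, π, hj, hjπ, hπ⟩
    ⟨⟨h1, h2⟩, ⟨h3, h4⟩, f, g, hf, hfg, hg⟩ ⟨⟨h5, h6⟩, ⟨h7, h8⟩, f', g', hf', hfg', hg'⟩
  have := free_of_places T hT X κ hκ hκr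
  have hid : Function.Exact i (j ∘ₗ q) := by
    intro y
    rw [← hiq y, LinearMap.comp_apply, map_eq_zero_iff j hj]
  have hdπ : Function.Exact (j ∘ₗ q) π := by
    intro y
    rw [hjπ y]
    constructor
    · rintro ⟨c, rfl⟩
      obtain ⟨x, rfl⟩ := hq c
      exact ⟨x, rfl⟩
    · rintro ⟨x, rfl⟩
      exact ⟨q x, rfl⟩
  obtain ⟨N, N', _, _, _, _, k1, k2, k3, k4, ⟨e⟩⟩ := core p hp U A B X P₀ P₁ Q₀ Q₁
    (op_units p hp T hst a b z ha hab hza hzb U ι hι hιr hιz)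
    (op_places p hp T hst a b z ha hab hza hzb X κ hκ hκr hκz)
    i (j ∘ₗ q) π hi hid hdπ hπ f g hf hfg hg f' g' hf' hfg' hg'
  exact ⟨ModuleCat.of _ N, ModuleCat.of _ N', ⟨k1, k3⟩, ⟨k2, k4⟩, ⟨e.toModuleIso⟩⟩
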